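import Mathlib

/-!
Nine parameters on the nodal cubic whose multiplicative relations are generated by `(k,...,k)`.
-/

set_option autoImplicit false

namespace Pool.Agent.Helper43.Nod

open Finset

/-- the primes -/
noncomputable def pr (i : ℕ) : ℕ := Nat.nth Nat.Prime i

lemma pr_prime (i : ℕ) : (pr i).Prime := Nat.prime_nth_prime i

lemma pr_inj : Function.Injective pr := Nat.nth_injective Nat.infinite_setOfPred_prime

lemma pr_two_le (i : ℕ) : 2 ≤ pr i := (pr_prime i).two_le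

lemma fact_prod (s : Finset ℕ) (α : ℕ → ℕ) (j : ℕ) (hj : j ∈ s) :
    (∏ i ∈ s, pr i ^ α i).factorization (pr j) = α j := by
  rw [Nat.factorization_prod (fun i _ => pow_ne_zero _ (pr_prime i).ne_zero), Finsupp.finsetSum_apply]
  rw [sum_eq_single j]
  · rw [Nat.factorization_pow, (pr_prime j).factorization]
    simp
  · intro i _ hij
    rw [Nat.factorization_pow, (pr_prime i).factorization]
    have : pr i ≠ pr j := fun h => hij (pr_inj h)
    simp [this]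
  · intro h; exact absurd hj h

lemma pow_unique (s : Finset ℕ) (α β : ℕ → ℕ) (h : ∏ i ∈ s, pr i ^ α i = ∏ i ∈ s, pr i ^ β i) :
    ∀ i ∈ s, α i = β i := by
  intro i hi
  rw [← fact_prod s α i hi, ← fact_prod s β i hi, h]

/-- the product of the eight primes -/
noncomputable def PI : ℕ := ∏ i ∈ range 8, pr i

lemma PI_pos : 0 < PI := prod_pos (fun i _ => (pr_prime i).pos)

lemma pr_lt_PI {i : ℕ} (hi : i < 8) : pr i < PI := by
  obtain ⟨j, hj, hij⟩ : ∃ j < 8, j ≠ i := by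
    by_cases h : i = 0
    · exact ⟨1, by norm_num, by omega⟩
    · exact ⟨0, by norm_num, by omega⟩
  have h1 : PI = pr i * ∏ t ∈ (range 8).erase i, pr t :=
    (mul_prod_erase _ _ (mem_range.2 hi)).symm
  have h2 : ∏ t ∈ (range 8).erase i, pr t = pr j * ∏ t ∈ ((range 8).erase i).erase j, pr t :=
    (mul_prod_erase _ _ (mem_erase.2 ⟨hij, mem_range.2 hj⟩)).symm
  have h3 : 0 < ∏ t ∈ ((range 8).erase i).erase j, pr t := prod_pos (fun t _ => (pr_prime t).pos)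
  have h4 : 2 ≤ ∏ t ∈ (range 8).erase i, pr t := by
    rw [h2]
    have := pr_two_le j
    nlinarith
  rw [h1]
  have := pr_two_le i
  nlinarith

variable {ζ : ℂ} {k : ℕ}

/-- the multiplicative parameters -/
noncomputable def uu (ζ : ℂ) (i : ℕ) : ℂ := if i < 8 then (pr i : ℂ) else ζ / (PI : ℂ)

/-- the parameters -/
noncomputable def zz (ζ : ℂ) (i : ℕ) : ℂ := (1 + uu ζ i) / (1 - uu ζ i)

lemma norm_uu_lt {i : ℕ} (hi : i < 8) : ‖uu ζ i‖ = pr i := by
  unfold uu; rw [if_pos hi, Complex.norm_natCast]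

lemma norm_uu_8 (hζ : ‖ζ‖ = 1) {i : ℕ} (hi : ¬ i < 8) : ‖uu ζ i‖ = 1 / PI := by
  unfold uu; rw [if_neg hi, norm_div, hζ, Complex.norm_natCast]

lemma uu_ne_zero (hζ : ‖ζ‖ = 1) (i : ℕ) : uu ζ i ≠ 0 := by
  rw [← norm_pos_iff]
  by_cases hi : i < 8
  · rw [norm_uu_lt hi]; exact_mod_cast (pr_prime i).pos
  · rw [norm_uu_8 hζ hi]
    have : (0 : ℝ) < PI := by exact_mod_cast PI_pos
    positivity

lemma norm_uu_ne_one (hζ : ‖ζ‖ = 1) (i : ℕ) : ‖uu ζ i‖ ≠ 1 := by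
  by_cases hi : i < 8
  · rw [norm_uu_lt hi]
    have := (pr_prime i).one_lt
    exact_mod_cast this.ne'
  · rw [norm_uu_8 hζ hi]
    have h1 := pr_lt_PI (show 0 < 8 by norm_num)
    have h2 := pr_two_le 0
    have h3 : (1 : ℝ) < PI := by exact_mod_cast (by omega : 1 < PI)
    intro h
    rw [div_eq_one_iff_eq (by positivity)] at h
    linarith

lemma uu_ne_one (hζ : ‖ζ‖ = 1) (i : ℕ) : uu ζ i ≠ 1 := by
  intro h
  apply norm_uu_ne_one hζ i
  rw [h, norm_one]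

lemma uu_ne_neg_one (hζ : ‖ζ‖ = 1) (i : ℕ) : uu ζ i ≠ -1 := by
  intro h
  apply norm_uu_ne_one hζ i
  rw [h, norm_neg, norm_one]

lemma one_sub_zz (hζ : ‖ζ‖ = 1) (i : ℕ) : 1 - zz ζ i = uu ζ i * (-1 - zz ζ i) := by
  unfold zz
  have h : 1 - uu ζ i ≠ 0 := sub_ne_zero.2 (uu_ne_one hζ i).symm
  field_simp
  ring

lemma neg_one_sub_zz (hζ : ‖ζ‖ = 1) (i : ℕ) : -1 - zz ζ i ≠ 0 := by
  unfold zz
  have h : 1 - uu ζ i ≠ 0 := sub_ne_zero.2 (uu_ne_one hζ i).symm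
  intro h0
  field_simp at h0
  have h1 : (2 : ℂ) = 0 := by linear_combination -h0
  norm_num at h1

lemma zz_ne_neg_one (hζ : ‖ζ‖ = 1) (i : ℕ) : zz ζ i ≠ -1 := by
  intro h
  apply neg_one_sub_zz hζ i
  rw [h]; ring

lemma zz_ne_one (hζ : ‖ζ‖ = 1) (i : ℕ) : zz ζ i ≠ 1 := by
  intro h
  have h1 := one_sub_zz hζ i
  rw [h, sub_self] at h1
  rcases mul_eq_zero.1 h1.symm with h2 | h2
  · exact uu_ne_zero hζ i h2
  · norm_num at h2

lemma zz_ne_zero (hζ : ‖ζ‖ = 1) (i : ℕ) : zz ζ i ≠ 0 := by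
  intro h
  have h1 := one_sub_zz hζ i
  rw [h] at h1
  apply uu_ne_neg_one hζ i
  linear_combination h1

lemma uu_inj (hζ : ‖ζ‖ = 1) {i j : ℕ} (hi : i < 9) (hj : j < 9) (h : ‖uu ζ i‖ = ‖uu ζ j‖) :
    i = j := by
  have hP : (1 : ℝ) ≤ PI := by exact_mod_cast PI_pos
  have key : ∀ i, i < 8 → (pr i : ℝ) ≠ 1 / PI := by
    intro i _ he
    have h2 : (2 : ℝ) ≤ pr i := by exact_mod_cast pr_two_le i
    rw [he, le_div_iff₀ (by linarith)] at h2
    linarith
  by_cases hi8 : i < 8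
  · by_cases hj8 : j < 8
    · rw [norm_uu_lt hi8, norm_uu_lt hj8] at h
      exact pr_inj (by exact_mod_cast h)
    · rw [norm_uu_lt hi8, norm_uu_8 hζ hj8] at h
      exact absurd h (key i hi8)
  · by_cases hj8 : j < 8
    · rw [norm_uu_lt hj8, norm_uu_8 hζ hi8] at h
      exact absurd h.symm (key j hj8)
    · omega

lemma uu_mul (hζ : ‖ζ‖ = 1) {i j : ℕ} (hi : i < 9) (hj : j < 9) (hij : i ≠ j) :
    uu ζ i * uu ζ j ≠ 1 := by
  intro h
  have h1 := congrArg (fun x : ℂ => ‖x‖) h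
  simp only [norm_mul, norm_one] at h1
  have hP : (0 : ℝ) < PI := by exact_mod_cast PI_pos
  have key : ∀ i, i < 8 → (pr i : ℝ) * (1 / PI) ≠ 1 := by
    intro i hi he
    have h2 : (pr i : ℝ) < PI := by exact_mod_cast pr_lt_PI hi
    rw [mul_one_div, div_eq_one_iff_eq hP.ne'] at he
    linarith
  by_cases hi8 : i < 8
  · by_cases hj8 : j < 8
    · rw [norm_uu_lt hi8, norm_uu_lt hj8] at h1
      have h2 : pr i * pr j = 1 := by exact_mod_cast h1
      have := pr_two_le i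
      have := pr_two_le j
      nlinarith
    · rw [norm_uu_lt hi8, norm_uu_8 hζ hj8] at h1
      exact key i hi8 h1
  · by_cases hj8 : j < 8
    · rw [norm_uu_lt hj8, norm_uu_8 hζ hi8, mul_comm] at h1
      exact key j hj8 h1
    · omega

lemma zz_sq_inj (hζ : ‖ζ‖ = 1) {i j : ℕ} (hi : i < 9) (hj : j < 9)
    (h : zz ζ i ^ 2 = zz ζ j ^ 2) : i = j := by
  have hi1 : 1 - uu ζ i ≠ 0 := sub_ne_zero.2 (uu_ne_one hζ i).symm
  have hj1 : 1 - uu ζ j ≠ 0 := sub_ne_zero.2 (uu_ne_one hζ j).symm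
  have h0 : (zz ζ i - zz ζ j) * (zz ζ i + zz ζ j) = 0 := by linear_combination h
  by_contra hij
  rcases mul_eq_zero.1 h0 with h1 | h1
  · apply hij
    apply uu_inj hζ hi hj
    unfold zz at h1
    field_simp at h1
    have : uu ζ i = uu ζ j := by linear_combination h1 / 2
    rw [this]
  · apply uu_mul hζ hi hj hij
    unfold zz at h1
    field_simp at h1
    linear_combination -h1 / 2

/-- relations between the parameters -/
theorem relation (hζ : IsPrimitiveRoot ζ k) (hk : 1 ≤ k) (α : ℕ → ℕ)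
    (h : ∏ i ∈ range 9, (1 - zz ζ i) ^ α i = ∏ i ∈ range 9, (-1 - zz ζ i) ^ α i) :
    (∀ i ∈ range 9, α i = α 8) ∧ k ∣ α 8 := by
  have hn : ‖ζ‖ = 1 := hζ.norm'_eq_one (by omega)
  have h1 : ∏ i ∈ range 9, uu ζ i ^ α i = 1 := by
    have h2 : ∏ i ∈ range 9, (1 - zz ζ i) ^ α i =
        (∏ i ∈ range 9, uu ζ i ^ α i) * ∏ i ∈ range 9, (-1 - zz ζ i) ^ α i := by
      rw [← prod_mul_distrib]
      apply prod_congr rfl
      intro i _
      rw [one_sub_zz hn, mul_pow]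
    rw [h2] at h
    have h3 : ∏ i ∈ range 9, (-1 - zz ζ i) ^ α i ≠ 0 :=
      prod_ne_zero_iff.2 (fun i _ => pow_ne_zero _ (neg_one_sub_zz hn i))
    exact mul_right_cancel₀ h3 (by rw [h, one_mul])
  rw [prod_range_succ] at h1
  have h8 : uu ζ 8 = ζ / (PI : ℂ) := by unfold uu; rw [if_neg (by norm_num)]
  have hlt : ∀ i ∈ range 8, uu ζ i ^ α i = ((pr i ^ α i : ℕ) : ℂ) := by
    intro i hi
    unfold uu
    rw [if_pos (mem_range.1 hi)]
    push_cast; rfl
  rw [prod_congr rfl hlt, h8, div_pow, ← Nat.cast_prod] at h1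
  have hPI : (PI : ℂ) ≠ 0 := by exact_mod_cast PI_pos.ne'
  have h2 : ((∏ i ∈ range 8, pr i ^ α i : ℕ) : ℂ) * ζ ^ α 8 = ((PI ^ α 8 : ℕ) : ℂ) := by
    push_cast
    push_cast at h1
    field_simp at h1
    exact h1
  have h3 : ∏ i ∈ range 8, pr i ^ α i = ∏ i ∈ range 8, pr i ^ (fun _ => α 8) i := by
    have h4 := congrArg (fun x : ℂ => ‖x‖) h2
    simp only [norm_mul, norm_pow, hn, one_pow, mul_one, Complex.norm_natCast] at h4
    have h5 : ∏ i ∈ range 8, pr i ^ α i = PI ^ α 8 := by exact_mod_cast h4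
    rw [h5, PI, ← prod_pow]
  have h4 := pow_unique (range 8) α (fun _ => α 8) h3
  refine ⟨?_, ?_⟩
  · intro i hi
    rw [mem_range] at hi
    by_cases h5 : i < 8
    · exact h4 i (mem_range.2 h5)
    · rw [show i = 8 by omega]
  · have h5 : ∏ i ∈ range 8, pr i ^ α i = PI ^ α 8 := by rw [h3, PI, ← prod_pow]
    rw [h5] at h2
    have h6 : ((PI ^ α 8 : ℕ) : ℂ) ≠ 0 := by exact_mod_cast (pow_pos PI_pos _).ne'
    have h7 : ζ ^ α 8 = 1 := by
      apply mul_left_cancel₀ h6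
      rw [h2, mul_one]
    exact hζ.dvd_of_pow_eq_one _ h7

/-- the relation with all exponents `k` -/
theorem relation_k (hζ : IsPrimitiveRoot ζ k) (hk : 1 ≤ k) :
    ∏ i ∈ range 9, (1 - zz ζ i) ^ k = ∏ i ∈ range 9, (-1 - zz ζ i) ^ k := by
  have hn : ‖ζ‖ = 1 := hζ.norm'_eq_one (by omega)
  have h1 : ∏ i ∈ range 9, (1 - zz ζ i) ^ k =
      (∏ i ∈ range 9, uu ζ i ^ k) * ∏ i ∈ range 9, (-1 - zz ζ i) ^ k := by
    rw [← prod_mul_distrib]
    apply prod_congr rfl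
    intro i _
    rw [one_sub_zz hn, mul_pow]
  have h2 : ∏ i ∈ range 9, uu ζ i ^ k = 1 := by
    rw [prod_range_succ]
    have h8 : uu ζ 8 = ζ / (PI : ℂ) := by unfold uu; rw [if_neg (by norm_num)]
    have hlt : ∀ i ∈ range 8, uu ζ i ^ k = (pr i : ℂ) ^ k := by
      intro i hi
      unfold uu
      rw [if_pos (mem_range.1 hi)]
    have hPI : (PI : ℂ) ≠ 0 := by exact_mod_cast PI_pos.ne'
    rw [prod_congr rfl hlt, h8, div_pow, hζ.pow_eq_one, prod_pow]
    have h9 : ∏ i ∈ range 8, (pr i : ℂ) = (PI : ℂ) := by rw [PI]; push_cast; rfl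
    rw [h9]
    field_simp
  rw [h1, h2, one_mul]

end Pool.Agent.Helper43.Nod
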