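import Pool.Agent.Helper18.NodDim
import Pool.Agent.Helper43.Nod.Units

/-!
A Halphen pencil on nine points of the nodal cubic.
-/

open Module

noncomputable section

namespace Pool.Agent.Helper43.Nod

open Helper18.Shgh Helper18.Nod

/-- the polynomial with the given zeros -/
def QQ (z : ℕ → ℂ) (α : ℕ → ℕ) : Polynomial ℂ :=
  ∏ i ∈ Finset.range 9, (Polynomial.X - Polynomial.C (z i)) ^ α i

section general

variable {z : ℕ → ℂ}

theorem QQ_monic (α : ℕ → ℕ) : (QQ z α).Monic :=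
  Polynomial.monic_prod_of_monic _ _ fun _ _ => (Polynomial.monic_X_sub_C _).pow _

theorem natDegree_QQ (α : ℕ → ℕ) : (QQ z α).natDegree = ∑ i ∈ Finset.range 9, α i := by
  rw [QQ, Polynomial.natDegree_prod_of_monic _ _ fun _ _ => (Polynomial.monic_X_sub_C _).pow _]
  apply Finset.sum_congr rfl
  intro i _
  rw [Polynomial.natDegree_pow, Polynomial.natDegree_X_sub_C, mul_one]

theorem eval_QQ (α : ℕ → ℕ) (x : ℂ) :
    (QQ z α).eval x = ∏ i ∈ Finset.range 9, (x - z i) ^ α i := by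
  rw [QQ, Polynomial.eval_prod]
  simp

theorem z_inj (hz : GoodZ z) {i j : ℕ} (hi : i < 9) (hj : j < 9) (h : z i = z j) : i = j :=
  hz.2 i hi j hj (by rw [h])

theorem QQ_dvd (hz : GoodZ z) {α : ℕ → ℕ} {f : Polynomial ℂ}
    (h : ∀ i ∈ Finset.range 9, (Polynomial.X - Polynomial.C (z i)) ^ α i ∣ f) : QQ z α ∣ f := by
  apply Finset.prod_dvd_of_coprime _ h
  intro i hi j hj hij
  apply IsCoprime.pow
  apply Polynomial.isCoprime_X_sub_C_of_isUnit_sub
  have hi' : i < 9 := Finset.mem_range.1 hi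
  have hj' : j < 9 := Finset.mem_range.1 hj
  exact (sub_ne_zero.2 fun h => hij (z_inj hz hi' hj' h)).isUnit

theorem eval_QQ_ne (hz : GoodZ z) (α : ℕ → ℕ) (x : ℂ) (hx : x = 1 ∨ x = -1) :
    (QQ z α).eval x ≠ 0 := by
  rw [eval_QQ, Finset.prod_ne_zero_iff]
  intro i hi
  apply pow_ne_zero
  have := hz.1 i (Finset.mem_range.1 hi)
  rcases hx with rfl | rfl
  · exact sub_ne_zero.2 this.1.symm
  · exact sub_ne_zero.2 this.2.symm

/-- a constant multiple of `QQ z α` that is a restriction -/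
theorem glue_const (hz : GoodZ z) {α : ℕ → ℕ} {F : R2} {c : ℂ} (hc : c ≠ 0)
    (h : rn F = QQ z α * Polynomial.C c) :
    ∏ i ∈ Finset.range 9, (1 - z i) ^ α i = ∏ i ∈ Finset.range 9, (-1 - z i) ^ α i := by
  have h1 := rn_glue F
  rw [h, Polynomial.eval_mul, Polynomial.eval_mul, Polynomial.eval_C, Polynomial.eval_C,
    eval_QQ, eval_QQ] at h1
  exact mul_right_cancel₀ hc h1

/-- restrictions of elements of `NS` -/
theorem rn_NS (hz : GoodZ z) {n : ℕ} {a : ℕ → ℕ} {G : R2} (hG : G ∈ NS z (n : ℤ) a) :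
    ∃ g : Polynomial ℂ, rn G = QQ z a * g ∧
      (g ≠ 0 → (∑ i ∈ Finset.range 9, a i) + g.natDegree ≤ 3 * n) := by
  obtain ⟨g, hg⟩ := QQ_dvd hz (α := a) (f := rn G) (fun i hi => rn_dvd (hG.2 i hi))
  refine ⟨g, hg, ?_⟩
  intro h0
  have h1 := natDegree_rn hG.1
  rw [hg, (QQ_monic a).natDegree_mul' h0, natDegree_QQ] at h1
  exact h1

theorem rn_NS_const (hz : GoodZ z) {n : ℕ} {a : ℕ → ℕ} (ha : ∑ i ∈ Finset.range 9, a i = 3 * n)
    {G : R2} (hG : G ∈ NS z (n : ℤ) a) : ∃ c : ℂ, rn G = QQ z a * Polynomial.C c := by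
  obtain ⟨g, hg, hd⟩ := rn_NS hz hG
  by_cases h0 : g = 0
  · exact ⟨0, by rw [hg, h0]; simp⟩
  · have h1 := hd h0
    have h2 : g.natDegree = 0 := by omega
    exact ⟨g.coeff 0, by rw [hg, ← Polynomial.eq_C_of_natDegree_eq_zero h2]⟩

/-- the restriction near a point of the curve -/
def phi (w : ℂ) : R2 →ₐ[ℂ] Polynomial ℂ :=
  MvPolynomial.aeval ![(Polynomial.X - Polynomial.C w) * (Polynomial.X + Polynomial.C w),
    (Polynomial.X - Polynomial.C w) * (Polynomial.X ^ 2 + Polynomial.C w * Polynomial.X +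
      Polynomial.C (w ^ 2 - 1))]

theorem rn_eq_phi (w : ℂ) (F : R2) : rn F = phi w (tau (np w) F) := by
  have h : rn = (phi w).comp (tau (np w)) := by
    apply MvPolynomial.algHom_ext
    intro i
    fin_cases i
    · simp only [rn, phi, tau, np, AlgHom.comp_apply, MvPolynomial.aeval_X, map_add,
        MvPolynomial.algHom_C, Fin.zero_eta, Matrix.cons_val_zero, Polynomial.algebraMap_eq]
      rw [map_sub, map_pow, map_one]
      ring
    · simp only [rn, phi, tau, np, AlgHom.comp_apply, MvPolynomial.aeval_X, map_add,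
        MvPolynomial.algHom_C, Fin.mk_one, Matrix.cons_val_one, Matrix.cons_val_fin_one,
        Polynomial.algebraMap_eq]
      simp only [map_sub, map_pow, map_one]
      ring
  exact DFunLike.congr_fun h F

theorem phi_dvd {w : ℂ} {m : ℕ} {F : R2} (h : F ∈ MvPolynomial.idealOfVars (Fin 2) ℂ ^ m) :
    (Polynomial.X - Polynomial.C w) ^ m ∣ phi w F := by
  have h1 : MvPolynomial.idealOfVars (Fin 2) ℂ ≤
      Ideal.comap (phi w) (Ideal.span {Polynomial.X - Polynomial.C w}) := by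
    rw [MvPolynomial.idealOfVars, Ideal.span_le]
    rintro _ ⟨i, rfl⟩
    change _ ∈ Ideal.comap (phi w) (Ideal.span {Polynomial.X - Polynomial.C w})
    rw [Ideal.mem_comap, Ideal.mem_span_singleton]
    fin_cases i
    · simp only [phi, MvPolynomial.aeval_X, Fin.zero_eta, Matrix.cons_val_zero]
      exact Dvd.intro _ rfl
    · simp only [phi, MvPolynomial.aeval_X, Fin.mk_one, Matrix.cons_val_one]
      exact Dvd.intro _ rfl
  have h2 := Ideal.pow_right_mono h1 m h
  have h3 := Ideal.le_comap_pow (phi w) m h2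
  rw [Ideal.mem_comap, Ideal.span_singleton_pow, Ideal.mem_span_singleton] at h3
  exact h3

/-- the leading coefficient in the direction of the first variable is determined -/
theorem mem_of_leading {w : ℂ} (hw : w ≠ 0) {s : ℕ} {G : R2} (h1 : G ∈ mI (np w) ^ s)
    (h2 : (Polynomial.X - Polynomial.C w) ^ (s + 1) ∣ rn G)
    (h3 : ∀ j < s, MvPolynomial.coeff (e2 (s - (j + 1)) (j + 1)) (tau (np w) G) = 0) :
    G ∈ mI (np w) ^ (s + 1) := by
  rw [mem_mI_pow] at h1
  set T := tau (np w) G with hT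
  set c := MvPolynomial.coeff (e2 s 0) T with hc
  have hother : ∀ e : Fin 2 →₀ ℕ, e.degree < s + 1 → e ≠ e2 s 0 → MvPolynomial.coeff e T = 0 := by
    intro e he hne
    by_cases he2 : e.degree < s
    · exact h1 e he2
    · have hd : e.degree = e 0 + e 1 := by
        rw [Finsupp.degree_eq_sum, Fin.sum_univ_two]
      have he3 : e 0 + e 1 = s := by omega
      have he1 : e 1 ≠ 0 := by
        intro h0
        apply hne
        rw [e2_eq e, h0, show e 0 = s by omega]
      have h4 := h3 (e 1 - 1) (by omega)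
      rw [show s - (e 1 - 1 + 1) = e 0 by omega, show e 1 - 1 + 1 = e 1 by omega, ← e2_eq] at h4
      exact h4
  have hF' : T - MvPolynomial.monomial (e2 s 0) c ∈
      MvPolynomial.idealOfVars (Fin 2) ℂ ^ (s + 1) := by
    rw [MvPolynomial.mem_pow_idealOfVars_iff']
    intro e he
    rw [MvPolynomial.coeff_sub, MvPolynomial.coeff_monomial]
    split_ifs with h5
    · rw [← h5, ← hc, sub_self]
    · rw [hother e he (fun h => h5 h.symm), sub_zero]
  have h4 := phi_dvd (w := w) hF'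
  rw [map_sub, hT, ← rn_eq_phi] at h4
  have h5 : (Polynomial.X - Polynomial.C w) ^ (s + 1) ∣ phi w (MvPolynomial.monomial (e2 s 0) c) :=
    (dvd_sub_right h2).1 h4
  have h6 : phi w (MvPolynomial.monomial (e2 s 0) c) = (Polynomial.X - Polynomial.C w) ^ s *
      (Polynomial.C c * (Polynomial.X + Polynomial.C w) ^ s) := by
    rw [phi, MvPolynomial.aeval_monomial, Finsupp.prod_fintype _ _ (by simp), Fin.prod_univ_two]
    have e0 : (e2 s 0) 0 = s := rfl
    have e1 : (e2 s 0) 1 = 0 := rfl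
    rw [e0, e1, pow_zero, mul_one, Matrix.cons_val_zero, mul_pow, Polynomial.algebraMap_eq]
    ring
  rw [h6, pow_succ] at h5
  have h7 := (mul_dvd_mul_iff_left (pow_ne_zero s (Polynomial.X_sub_C_ne_zero w))).1 h5
  rw [Polynomial.dvd_iff_isRoot, Polynomial.IsRoot.def, Polynomial.eval_mul, Polynomial.eval_C,
    Polynomial.eval_pow, Polynomial.eval_add, Polynomial.eval_X, Polynomial.eval_C] at h7
  have h8 : c = 0 := by
    rcases mul_eq_zero.1 h7 with h8 | h8
    · exact h8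
    · exfalso
      apply hw
      have : w + w = 0 := by
        by_contra hne
        exact pow_ne_zero s hne h8
      linear_combination this / 2
  rw [mem_mI_pow]
  intro e he
  by_cases hne : e = e2 s 0
  · rw [hne, ← hT, ← hc, h8]
  · rw [← hT]; exact hother e he hne

/-- cancelling an element of order exactly `k` -/
theorem mem_of_mul_mem_order {P : Fin 2 → ℂ} {k m : ℕ} {A G : R2}
    (hA : A ∉ mI P ^ (k + 1)) (h : A * G ∈ mI P ^ m) : G ∈ mI P ^ (m - k) := by
  rw [mem_mI_pow_order] at *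
  rw [map_mul, MvPolynomial.coe_mul, MvPowerSeries.order_mul] at h
  push Not at hA
  by_cases hG : MvPowerSeries.order (tau P G : MvPowerSeries (Fin 2) ℂ) = ⊤
  · rw [hG]; exact le_top
  obtain ⟨g, hg⟩ := ENat.ne_top_iff_exists.1 hG
  have hA' : MvPowerSeries.order (tau P A : MvPowerSeries (Fin 2) ℂ) ≠ ⊤ := ne_top_of_lt hA
  obtain ⟨a, ha⟩ := ENat.ne_top_iff_exists.1 hA'
  rw [← hg, ← ha] at h
  rw [← ha] at hA
  rw [← hg]
  norm_cast at *
  omega

end general

section pencil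

variable {ζ : ℂ} {k : ℕ}

theorem goodZ_zz (hζ : IsPrimitiveRoot ζ k) (hk : 1 ≤ k) : GoodZ (zz ζ) := by
  have hn : ‖ζ‖ = 1 := hζ.norm'_eq_one (by omega)
  exact ⟨fun i _ => ⟨zz_ne_one hn i, zz_ne_neg_one hn i⟩,
    fun i hi j hj h => zz_sq_inj hn hi hj h⟩

/-- below level `k` there are only the multiples of the cubic -/
theorem low (hζ : IsPrimitiveRoot ζ k) (hk : 1 ≤ k) (j : ℕ) (hj : j < k) :
    ∀ G ∈ NS (zz ζ) (3 * j : ℤ) (fun _ => j), ∃ c : ℂ, G = MvPolynomial.C c * cn ^ j := by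
  have hz := goodZ_zz hζ hk
  induction j with
  | zero =>
    intro G hG
    have h1 := hG.1
    rw [mem_V] at h1
    rcases h1 with rfl | h1
    · exact ⟨0, by simp⟩
    · have h2 : G.totalDegree = 0 := by
        have : (G.totalDegree : ℤ) ≤ 0 := by simpa using h1
        omega
      have h3 := MvPolynomial.totalDegree_eq_zero_iff_eq_C.1 h2
      exact ⟨MvPolynomial.coeff 0 G, by rw [pow_zero, mul_one]; exact h3⟩
  | succ j ih =>
    intro G hG
    have hG' : G ∈ NS (zz ζ) ((3 * (j + 1) : ℕ) : ℤ) (fun _ => j + 1) := by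
      have e : ((3 * (j + 1) : ℕ) : ℤ) = 3 * ((j + 1 : ℕ) : ℤ) := by push_cast; ring
      rw [e]; exact hG
    obtain ⟨c, hc⟩ := rn_NS_const hz (by
      rw [Finset.sum_const, Finset.card_range, smul_eq_mul]; ring) hG'
    have hc0 : c = 0 := by
      by_contra hne
      have h1 := glue_const hz hne hc
      have h2 := (relation hζ hk (fun _ => j + 1) h1).2
      have h3 := Nat.le_of_dvd (by omega) h2
      omega
    rw [hc0, map_zero, mul_zero] at hc
    obtain ⟨G', hG1⟩ := exists_of_rn_eq_zero hc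
    rw [hG1, cn_mul_mem_NS hz] at hG'
    have e1 : ((3 * (j + 1) : ℕ) : ℤ) - 3 = 3 * (j : ℤ) := by push_cast; ring
    have e2 : (fun i : ℕ => (fun _ => j + 1 : ℕ → ℕ) i - 1) = fun _ => j := by funext i; simp
    rw [e1, e2] at hG'
    obtain ⟨c', hc'⟩ := ih (by omega) G' hG'
    exact ⟨c', by rw [hG1, hc', pow_succ]; ring⟩

/-- the multiplicities `(k, ..., k, k - 1)` -/
def ak (k : ℕ) (i : ℕ) : ℕ := if i = 8 then k - 1 else k

theorem sum_ak (hk : 1 ≤ k) : ∑ i ∈ Finset.range 9, ak k i + 1 = 9 * k := by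
  simp only [Finset.sum_range_succ, Finset.sum_range_zero, ak]
  norm_num
  omega

theorem QQ_ak (z : ℕ → ℂ) (hk : 1 ≤ k) :
    QQ z (ak k) * (Polynomial.X - Polynomial.C (z 8)) = QQ z (fun _ => k) := by
  rw [QQ, QQ, Finset.prod_range_succ, Finset.prod_range_succ (n := 8)]
  have h1 : ∀ i ∈ Finset.range 8, (Polynomial.X - Polynomial.C (z i)) ^ ak k i =
      (Polynomial.X - Polynomial.C (z i)) ^ k := by
    intro i hi
    rw [Finset.mem_range] at hi
    rw [ak, if_neg (by omega)]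
  rw [Finset.prod_congr rfl h1, ak, if_pos rfl, mul_assoc, ← pow_succ, Nat.sub_add_cancel hk]

theorem dvd_top (hζ : IsPrimitiveRoot ζ k) (hk : 1 ≤ k) {G : R2}
    (hG : G ∈ NS (zz ζ) (3 * k : ℤ) (ak k)) :
    (Polynomial.X - Polynomial.C (zz ζ 8)) ^ k ∣ rn G := by
  have hz := goodZ_zz hζ hk
  have hG' : G ∈ NS (zz ζ) ((3 * k : ℕ) : ℤ) (ak k) := by
    have e : ((3 * k : ℕ) : ℤ) = 3 * (k : ℤ) := by push_cast; ring
    rw [e]; exact hG
  obtain ⟨g, hg, hd⟩ := rn_NS hz hG'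
  by_cases h0 : g = 0
  · rw [hg, h0, mul_zero]; exact dvd_zero _
  have h1 := hd h0
  have h2 := sum_ak hk
  have h3 : g.natDegree ≤ 1 := by omega
  obtain ⟨g1, g0, hgg⟩ : ∃ g1 g0 : ℂ, g = Polynomial.C g1 * Polynomial.X + Polynomial.C g0 :=
    ⟨_, _, Polynomial.eq_X_add_C_of_natDegree_le_one h3⟩
  have h4 := rn_glue G
  rw [hg, Polynomial.eval_mul, Polynomial.eval_mul] at h4
  have h5 : (QQ (zz ζ) (ak k)).eval 1 * (1 - zz ζ 8) =
      (QQ (zz ζ) (ak k)).eval (-1) * (-1 - zz ζ 8) := by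
    have h6 := relation_k hζ hk
    have h7 := congrArg (Polynomial.eval 1) (QQ_ak (zz ζ) hk)
    have h8 := congrArg (Polynomial.eval (-1)) (QQ_ak (zz ζ) hk)
    rw [Polynomial.eval_mul, Polynomial.eval_sub, Polynomial.eval_X, Polynomial.eval_C,
      eval_QQ (fun _ => k)] at h7 h8
    rw [h7, h8]
    exact h6
  have ha := eval_QQ_ne hz (ak k) 1 (Or.inl rfl)
  have h6 : g.eval (zz ζ 8) = 0 := by
    rw [hgg] at h4 ⊢
    simp only [Polynomial.eval_add, Polynomial.eval_mul, Polynomial.eval_C, Polynomial.eval_X] at h4 ⊢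
    set a := (QQ (zz ζ) (ak k)).eval 1
    set b := (QQ (zz ζ) (ak k)).eval (-1)
    set w := zz ζ 8
    have h7 : a * (2 * (g1 * w + g0)) = 0 := by
      linear_combination (-1 - w) * (-h4) + (-g1 + g0) * h5
    rcases mul_eq_zero.1 h7 with h8 | h8
    · exact absurd h8 ha
    · linear_combination h8 / 2
  have h7 : (Polynomial.X - Polynomial.C (zz ζ 8)) ∣ g := by
    rw [Polynomial.dvd_iff_isRoot]; exact h6
  obtain ⟨g', hg'⟩ := h7
  rw [hg, hg', ← mul_assoc, QQ_ak _ hk, QQ]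
  apply Dvd.dvd.mul_right
  exact Finset.dvd_prod_of_mem _ (Finset.mem_range.2 (by norm_num : 8 < 9))

/-- the coefficients of the leading form at the last point -/
def lead (p : Fin 2 → ℂ) (s : ℕ) : R2 →ₗ[ℂ] (Fin s → ℂ) :=
  LinearMap.pi fun j => (MvPolynomial.lcoeff ℂ (e2 (s - ((j : ℕ) + 1)) ((j : ℕ) + 1))) ∘ₗ
    (tau p).toLinearMap

theorem two_le_finrank (hζ : IsPrimitiveRoot ζ k) (hk : 1 ≤ k) :
    2 ≤ finrank ℂ (NS (zz ζ) (3 * k : ℤ) (fun _ => k)) := by
  have hn : ‖ζ‖ = 1 := hζ.norm'_eq_one (by omega)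
  obtain ⟨s, rfl⟩ : ∃ s, k = s + 1 := ⟨k - 1, by omega⟩
  have h1 := NS_lower (zz ζ) (3 * ((s + 1 : ℕ) : ℤ)) (by push_cast; omega) (ak (s + 1))
  have h2 : ∑ i ∈ Finset.range 9, ((ak (s + 1) i : ℕ) : ℤ) * (((ak (s + 1) i : ℕ) : ℤ) + 1) =
      8 * ((s + 1) * (s + 2)) + s * (s + 1) := by
    simp only [Finset.sum_range_succ, Finset.sum_range_zero, ak]
    norm_num
    ring
  have h3 := finrank_le_add (NS (zz ζ) (3 * ((s + 1 : ℕ) : ℤ)) (fun _ => s + 1))
    (NS (zz ζ) (3 * ((s + 1 : ℕ) : ℤ)) (ak (s + 1))) (lead (np (zz ζ 8)) s) (by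
      intro G hG hG0
      refine ⟨hG.1, fun i hi => ?_⟩
      by_cases h8 : i = 8
      · subst h8
        apply mem_of_leading (zz_ne_zero hn 8)
        · have := hG.2 8 hi
          rw [ak, if_pos rfl] at this
          exact this
        · exact dvd_top hζ hk hG
        · intro j hj
          have := congrFun hG0 ⟨j, hj⟩
          exact this
      · have := hG.2 i hi
        rw [ak, if_neg h8] at this
        exact this)
  rw [finrank_fintype_fun_eq_card, Fintype.card_fin] at h3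
  rw [h2] at h1
  push_cast at h1
  have h4 : (s : ℤ) + 2 ≤ finrank ℂ (NS (zz ζ) (3 * ((s + 1 : ℕ) : ℤ)) (ak (s + 1))) := by
    push_cast
    nlinarith
  have h5 : s + 2 ≤ finrank ℂ (NS (zz ζ) (3 * ((s + 1 : ℕ) : ℤ)) (ak (s + 1))) := by
    exact_mod_cast h4
  omega

/-- an element of the pencil -/
theorem exists_member (hζ : IsPrimitiveRoot ζ k) (hk : 1 ≤ k) :
    ∃ F ∈ NS (zz ζ) (3 * k : ℤ) (fun _ => k), rn F = QQ (zz ζ) (fun _ => k) := by
  have hz := goodZ_zz hζ hk
  have h2 := two_le_finrank hζ hk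
  obtain ⟨F, hF, hF0⟩ : ∃ F ∈ NS (zz ζ) (3 * k : ℤ) (fun _ => k), rn F ≠ 0 := by
    by_contra hcon
    push Not at hcon
    have h3 : NS (zz ζ) (3 * k : ℤ) (fun _ => k) ≤ ℂ ∙ (cn ^ k) := by
      intro F hF
      obtain ⟨G, hG⟩ := exists_of_rn_eq_zero (hcon F hF)
      rw [hG, cn_mul_mem_NS hz] at hF
      have e1 : 3 * (k : ℤ) - 3 = 3 * ((k - 1 : ℕ) : ℤ) := by
        push_cast [Nat.cast_sub hk]; ring
      rw [e1] at hF
      obtain ⟨c, hc⟩ := low hζ hk (k - 1) (by omega) G hF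
      rw [Submodule.mem_span_singleton]
      refine ⟨c, ?_⟩
      have e2 : cn ^ k = cn ^ (k - 1) * cn := by rw [← pow_succ, Nat.sub_add_cancel hk]
      rw [hG, hc, MvPolynomial.smul_eq_C_mul, e2]
      ring
    have h4 := Submodule.finrank_mono h3
    have h5 := finrank_span_le_card (R := ℂ) ({cn ^ k} : Set R2)
    rw [Set.toFinset_singleton, Finset.card_singleton] at h5
    omega
  have hF' : F ∈ NS (zz ζ) ((3 * k : ℕ) : ℤ) (fun _ => k) := by
    have e : ((3 * k : ℕ) : ℤ) = 3 * (k : ℤ) := by push_cast; ring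
    rw [e]; exact hF
  obtain ⟨c, hc⟩ := rn_NS_const hz (by
    rw [Finset.sum_const, Finset.card_range, smul_eq_mul]; ring) hF'
  have hc0 : c ≠ 0 := by
    intro h0
    rw [h0, map_zero, mul_zero] at hc
    exact hF0 hc
  refine ⟨c⁻¹ • F, Submodule.smul_mem _ _ hF, ?_⟩
  rw [map_smul, hc, mul_comm, ← Polynomial.smul_eq_C_mul, smul_smul, inv_mul_cancel₀ hc0, one_smul]

/-- divisors of a product of linear factors -/
theorem dvd_QQ {z : ℕ → ℂ} (hz : GoodZ z) {k : ℕ} {f : Polynomial ℂ}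
    (h : f ∣ QQ z (fun _ => k)) : ∃ (α : ℕ → ℕ) (e : ℂ), e ≠ 0 ∧ f = QQ z α * Polynomial.C e := by
  have hf0 : f ≠ 0 := by
    rintro rfl
    exact (QQ_monic (z := z) (fun _ => k)).ne_zero (zero_dvd_iff.1 h)
  set α : ℕ → ℕ := fun i => f.rootMultiplicity (z i) with hα
  obtain ⟨g, hg⟩ := QQ_dvd hz (α := α) (f := f) (fun i _ => Polynomial.pow_rootMultiplicity_dvd f _)
  have hg0 : g ≠ 0 := by
    rintro rfl
    rw [mul_zero] at hg
    exact hf0 hg
  have hdeg : g.degree = 0 := by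
    by_contra hne
    obtain ⟨x, hx⟩ := IsAlgClosed.exists_root g hne
    have h1 : (QQ z (fun _ => k)).eval x = 0 := by
      obtain ⟨f', hf'⟩ := h
      rw [hf', hg, Polynomial.eval_mul, Polynomial.eval_mul, hx.eq_zero]
      ring
    rw [eval_QQ, Finset.prod_eq_zero_iff] at h1
    obtain ⟨i, hi, h2⟩ := h1
    have h3 : x = z i := by
      by_contra hne2
      exact pow_ne_zero k (sub_ne_zero.2 hne2) h2
    rw [h3] at hx
    have h4 : (Polynomial.X - Polynomial.C (z i)) ^ (α i + 1) ∣ f := by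
      rw [hg, pow_succ]
      apply mul_dvd_mul
      · rw [QQ]; exact Finset.dvd_prod_of_mem _ hi
      · rw [Polynomial.dvd_iff_isRoot]; exact hx
    exact Polynomial.pow_rootMultiplicity_not_dvd hf0 (z i) h4
  have hC := Polynomial.eq_C_of_degree_le_zero hdeg.le
  refine ⟨α, g.coeff 0, ?_, by rw [hg, ← hC]⟩
  intro h5
  rw [h5, map_zero] at hC
  exact hg0 hC

theorem totalDegree_member {F : R2}
    (hF : F ∈ NS (zz ζ) (3 * k : ℤ) (fun _ => k)) (hr : rn F = QQ (zz ζ) (fun _ => k)) :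
    F ≠ 0 ∧ F.totalDegree = 3 * k := by
  have h0 : F ≠ 0 := by
    rintro rfl
    rw [map_zero] at hr
    exact (QQ_monic (z := zz ζ) (fun _ => k)).ne_zero hr.symm
  refine ⟨h0, ?_⟩
  have h1 := hF.1
  rw [mem_V] at h1
  have h2 := h1.resolve_left h0
  have h3 : F ∈ V (F.totalDegree : ℤ) := by rw [mem_V]; right; exact le_rfl
  have h4 := natDegree_rn h3
  rw [hr, natDegree_QQ, Finset.sum_const, Finset.card_range, smul_eq_mul] at h4
  omega

theorem irreducible_member (hζ : IsPrimitiveRoot ζ k) (hk : 1 ≤ k) {F : R2}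
    (hF : F ∈ NS (zz ζ) (3 * k : ℤ) (fun _ => k)) (hr : rn F = QQ (zz ζ) (fun _ => k)) :
    Irreducible F := by
  have hz := goodZ_zz hζ hk
  obtain ⟨h0, htd⟩ := totalDegree_member hF hr
  constructor
  · intro hu
    have h1 := hu.map rn
    rw [hr] at h1
    have h2 := Polynomial.natDegree_eq_zero_of_isUnit h1
    rw [natDegree_QQ, Finset.sum_const, Finset.card_range, smul_eq_mul] at h2
    omega
  · intro A B hAB
    have hA0 : A ≠ 0 := by rintro rfl; exact h0 (by rw [hAB, zero_mul])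
    have hB0 : B ≠ 0 := by rintro rfl; exact h0 (by rw [hAB, mul_zero])
    have h1 : rn A * rn B = QQ (zz ζ) (fun _ => k) := by rw [← map_mul, ← hAB, hr]
    obtain ⟨α, e, he, hA⟩ := dvd_QQ hz (Dvd.intro _ h1)
    have h2 := relation hζ hk α (glue_const hz he hA)
    have hne := (QQ_monic (z := zz ζ) (fun _ => k)).ne_zero
    rw [← h1] at hne
    have h3 := Polynomial.natDegree_mul (left_ne_zero_of_mul hne) (right_ne_zero_of_mul hne)
    rw [h1, natDegree_QQ, Finset.sum_const, Finset.card_range, smul_eq_mul] at h3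
    have h4 : (rn A).natDegree = 9 * α 8 := by
      rw [hA, Polynomial.natDegree_mul_C he, natDegree_QQ, Finset.sum_congr rfl h2.1,
        Finset.sum_const, Finset.card_range, smul_eq_mul]
    have hVA : A ∈ V (A.totalDegree : ℤ) := by rw [mem_V]; right; exact le_rfl
    have hVB : B ∈ V (B.totalDegree : ℤ) := by rw [mem_V]; right; exact le_rfl
    have h5 := natDegree_rn hVA
    have h6 := natDegree_rn hVB
    have h7 := MvPolynomial.totalDegree_mul_of_isDomain hA0 hB0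
    rw [← hAB, htd] at h7
    obtain ⟨q, hq⟩ := h2.2
    have hunit : ∀ C : R2, C ≠ 0 → C.totalDegree = 0 → IsUnit C := by
      intro C hC hC0
      have h8 := MvPolynomial.totalDegree_eq_zero_iff_eq_C.1 hC0
      rw [h8]
      apply IsUnit.map
      rw [isUnit_iff_ne_zero]
      intro h9
      rw [h9, map_zero] at h8
      exact hC h8
    rcases Nat.eq_zero_or_pos q with hq0 | hq0
    · left
      apply hunit A hA0
      rw [hq0, mul_zero] at hq
      omega
    · right
      apply hunit B hB0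
      have : k ≤ α 8 := by
        rw [hq]; exact Nat.le_mul_of_pos_right k hq0
      omega

theorem mul_member (hζ : IsPrimitiveRoot ζ k) (hk : 1 ≤ k) {F : R2}
    (hF : F ∈ NS (zz ζ) (3 * k : ℤ) (fun _ => k)) (hr : rn F = QQ (zz ζ) (fun _ => k))
    (n : ℤ) (a : ℕ → ℕ) (G : R2) :
    F * G ∈ NS (zz ζ) n a ↔ G ∈ NS (zz ζ) (n - 3 * k) (fun i => a i - k) := by
  have hz := goodZ_zz hζ hk
  obtain ⟨h0, htd⟩ := totalDegree_member hF hr
  rw [mem_SP, mem_SP]
  have hV : F * G ∈ V n ↔ G ∈ V (n - 3 * k) := by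
    have h1 := mul_mem_V_iff (F := G) h0 (n := n - 3 * k)
    rw [htd] at h1
    rw [← h1]
    congr! 2
    push_cast
    ring
  rw [hV]
  refine and_congr_right fun _ => forall₂_congr fun i hi => ?_
  constructor
  · intro h
    refine mem_of_mul_mem_order (A := F) ?_ h
    intro h2
    have h3 := rn_dvd h2
    rw [hr] at h3
    -- the multiplicity of the root is k
    have h4 : QQ (zz ζ) (fun _ => k) = (Polynomial.X - Polynomial.C (zz ζ i)) ^ k *
        ∏ j ∈ (Finset.range 9).erase i, (Polynomial.X - Polynomial.C (zz ζ j)) ^ k := by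
      rw [QQ, Finset.mul_prod_erase (Finset.range 9)
        (fun j => (Polynomial.X - Polynomial.C (zz ζ j)) ^ k) hi]
    rw [h4, pow_succ] at h3
    have h5 := (mul_dvd_mul_iff_left (pow_ne_zero k (Polynomial.X_sub_C_ne_zero (zz ζ i)))).1 h3
    rw [Polynomial.dvd_iff_isRoot, Polynomial.IsRoot.def, Polynomial.eval_prod,
      Finset.prod_eq_zero_iff] at h5
    obtain ⟨j, hj, h6⟩ := h5
    rw [Polynomial.eval_pow, Polynomial.eval_sub, Polynomial.eval_X, Polynomial.eval_C] at h6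
    rw [Finset.mem_erase, Finset.mem_range] at hj
    have h7 : zz ζ i = zz ζ j := by
      by_contra hne
      exact pow_ne_zero k (sub_ne_zero.2 hne) h6
    exact hj.1 (z_inj hz hj.2 (Finset.mem_range.1 hi) h7.symm)
  · intro h
    have h2 := mul_mem_mI_pow (hF.2 i hi) h
    exact Ideal.pow_le_pow_right (by simp only; omega) h2

/-- **The pencil.** -/
theorem exists_pencil (k : ℕ) (hk : 1 ≤ k) : ∃ (z : ℕ → ℂ) (F : R2), GoodZ z ∧
    F ∈ NS z (3 * k : ℤ) (fun _ => k) ∧
    rn F = ∏ i ∈ Finset.range 9, (Polynomial.X - Polynomial.C (z i)) ^ k ∧ Irreducible F ∧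
    (∀ j < k, ∀ G ∈ NS z (3 * j : ℤ) (fun _ => j), ∃ c : ℂ, G = MvPolynomial.C c * cn ^ j) ∧
    ∀ (n : ℤ) (a : ℕ → ℕ) (G : R2),
      F * G ∈ NS z n a ↔ G ∈ NS z (n - 3 * k) (fun i => a i - k) := by
  obtain ⟨ζ, hζ⟩ : ∃ ζ : ℂ, IsPrimitiveRoot ζ k :=
    ⟨_, Complex.isPrimitiveRoot_exp k (by omega)⟩
  obtain ⟨F, hF, hr⟩ := exists_member hζ hk
  exact ⟨zz ζ, F, goodZ_zz hζ hk, hF, hr, irreducible_member hζ hk hF hr, low hζ hk,
    mul_member hζ hk hF hr⟩

end pencil

end Pool.Agent.Helper43.Nod
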