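import Pool.Agent.Helper18.SlabFinal
import Pool.Agent.Helper43.Nod.Pencil

/-!
The hypothesis of `Helper18.Slab.main_all`.
-/

open Module

noncomputable section

namespace Pool.Agent.Helper43.Nod

open Helper18.Shgh Helper18.Nod Helper18.Slab

theorem hex (k : ℕ) (hk : 1 ≤ k) : ∃ (z : ℕ → ℂ) (F : R2), PencilData k z F ∧ Uniq k z := by
  obtain ⟨z, F, h1, h2, h3, h4, h5, _⟩ := exists_pencil k hk
  exact ⟨z, F, ⟨h1, h2, h3, h4⟩, h5⟩

end Pool.Agent.Helper43.Nod
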